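import Pool.Agent.helper73.AD.GW1
import Pool.Agent.helper73.AD.GWL

open scoped MatrixGroups LinearAlgebra.Projectivization BigOperators
open Matrix UpperHalfPlane

namespace AdSBend

noncomputable section

theorem WA4_sd_symm (a b c : ℝ) : sd a b c = sd b a c := by
  unfold sd
  rw [mul_comm (Real.cosh (a / 2)), mul_comm (Real.sinh (a / 2))]

theorem WA4_Q_gt (a b c : ℝ) (ha : 0 < a) (hb : 0 < b) :
    1 < (Real.cosh (c / 2) + Real.cosh (a / 2) * Real.cosh (b / 2)) /
      (Real.sinh (a / 2) * Real.sinh (b / 2)) := by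
  have h1 : 0 < Real.sinh (a / 2) := Real.sinh_pos_iff.2 (by linarith)
  have h2 : 0 < Real.sinh (b / 2) := Real.sinh_pos_iff.2 (by linarith)
  have h3 : 0 < Real.cosh (c / 2) := Real.cosh_pos _
  have h4 : Real.sinh (a / 2) < Real.cosh (a / 2) := Real.sinh_lt_cosh _
  have h5 : Real.sinh (b / 2) < Real.cosh (b / 2) := Real.sinh_lt_cosh _
  rw [lt_div_iff₀ (mul_pos h1 h2), one_mul]
  have := mul_lt_mul'' h4 h5 h1.le h2.le
  linarith

theorem WA4_cosh_sd (a b c : ℝ) (ha : 0 < a) (hb : 0 < b) :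
    Real.cosh (sd a b c) = (Real.cosh (c / 2) + Real.cosh (a / 2) * Real.cosh (b / 2)) /
      (Real.sinh (a / 2) * Real.sinh (b / 2)) :=
  Real.cosh_arcosh (WA4_Q_gt a b c ha hb).le

theorem WA4_sd_pos (a b c : ℝ) (ha : 0 < a) (hb : 0 < b) : 0 < sd a b c :=
  Real.arcosh_pos (WA4_Q_gt a b c ha hb)

theorem WA4_hasDerivAt (a b c a' b' c' : ℝ) (ha : 0 < a) (hb : 0 < b) :
    HasDerivAt (fun s : ℝ => sd (a + s * a') (b + s * b') (c + s * c'))
      ((Real.sinh (sd a b c) * Real.sinh (a / 2) * Real.sinh (b / 2))⁻¹ *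
        ((c' / 2) * Real.sinh (c / 2) +
      (a' / 2) * (Real.sinh (a / 2) * Real.cosh (b / 2) -
        Real.cosh (sd a b c) * Real.cosh (a / 2) * Real.sinh (b / 2)) +
      (b' / 2) * (Real.cosh (a / 2) * Real.sinh (b / 2) -
        Real.cosh (sd a b c) * Real.sinh (a / 2) * Real.cosh (b / 2)))) 0 := by
  have hlin : ∀ u u' : ℝ, HasDerivAt (fun s : ℝ => (u + s * u') / 2) (u' / 2) 0 := by
    intro u u'
    have := (((hasDerivAt_id (0 : ℝ)).mul_const u').const_add u).div_const 2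
    simpa using this
  have hz : ∀ u u' : ℝ, (u + 0 * u') / 2 = u / 2 := by intro u u'; ring
  have hch : ∀ u u' : ℝ, HasDerivAt (fun s : ℝ => Real.cosh ((u + s * u') / 2))
      (Real.sinh (u / 2) * (u' / 2)) 0 := by
    intro u u'
    have := (hlin u u').cosh
    rwa [hz] at this
  have hsh : ∀ u u' : ℝ, HasDerivAt (fun s : ℝ => Real.sinh ((u + s * u') / 2))
      (Real.cosh (u / 2) * (u' / 2)) 0 := by
    intro u u'
    have := (hlin u u').sinh
    rwa [hz] at this
  have h1 : 0 < Real.sinh (a / 2) := Real.sinh_pos_iff.2 (by linarith)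
  have h2 : 0 < Real.sinh (b / 2) := Real.sinh_pos_iff.2 (by linarith)
  have hN := (hch c c').add ((hch a a').mul (hch b b'))
  have hD := (hsh a a').mul (hsh b b')
  have hD0 : Real.sinh ((a + 0 * a') / 2) * Real.sinh ((b + 0 * b') / 2) ≠ 0 := by
    rw [hz, hz]; exact (mul_pos h1 h2).ne'
  have hQ := hN.div hD hD0
  have hgt := WA4_Q_gt a b c ha hb
  have hQ0 : (Real.cosh ((c + 0 * c') / 2) + Real.cosh ((a + 0 * a') / 2) *
      Real.cosh ((b + 0 * b') / 2)) / (Real.sinh ((a + 0 * a') / 2) *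
      Real.sinh ((b + 0 * b') / 2)) = (Real.cosh (c / 2) + Real.cosh (a / 2) *
      Real.cosh (b / 2)) / (Real.sinh (a / 2) * Real.sinh (b / 2)) := by
    rw [hz, hz, hz]
  have harc : HasDerivAt Real.arcosh
      (√(((Real.cosh (c / 2) + Real.cosh (a / 2) *
      Real.cosh (b / 2)) / (Real.sinh (a / 2) * Real.sinh (b / 2))) ^ 2 - 1))⁻¹
      ((Real.cosh ((c + 0 * c') / 2) + Real.cosh ((a + 0 * a') / 2) *
      Real.cosh ((b + 0 * b') / 2)) / (Real.sinh ((a + 0 * a') / 2) *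
      Real.sinh ((b + 0 * b') / 2))) := by
    rw [hQ0]; exact Real.hasDerivAt_arcosh hgt
  have hfin := harc.comp (0 : ℝ) hQ
  have hsq : √(((Real.cosh (c / 2) + Real.cosh (a / 2) *
      Real.cosh (b / 2)) / (Real.sinh (a / 2) * Real.sinh (b / 2))) ^ 2 - 1) =
      Real.sinh (sd a b c) := (Real.sinh_arcosh hgt.le).symm
  rw [hsq] at hfin
  refine HasDerivAt.congr_deriv hfin ?_
  have hs : 0 < Real.sinh (sd a b c) := Real.sinh_pos_iff.2 (WA4_sd_pos a b c ha hb)
  rw [WA4_cosh_sd a b c ha hb]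
  simp only [Pi.mul_apply, Pi.add_apply, zero_mul, add_zero]
  field_simp
  ring

/-- WA4 -/
theorem WA4 : WA4_stmt := by
  refine ⟨WA4_sd_symm, ?_, ?_⟩
  · intro a b c a' b' c'
    unfold dsd
    congr 1
    funext s
    exact WA4_sd_symm _ _ _
  · intro a b c a' b' c' ha hb hc
    have h := WA4_hasDerivAt a b c a' b' c' ha hb
    refine ⟨h.differentiableAt, ?_⟩
    have h1 : 0 < Real.sinh (a / 2) := Real.sinh_pos_iff.2 (by linarith)
    have h2 : 0 < Real.sinh (b / 2) := Real.sinh_pos_iff.2 (by linarith)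
    have hs : 0 < Real.sinh (sd a b c) := Real.sinh_pos_iff.2 (WA4_sd_pos a b c ha hb)
    unfold dsd
    rw [h.deriv, ← mul_assoc, mul_inv_cancel₀ (by positivity), one_mul]

end

end AdSBend
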