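import Pool.Agent.helper73.AD.GW1
import Pool.Agent.helper21.AW.WA4

open scoped MatrixGroups LinearAlgebra.Projectivization BigOperators
open Matrix UpperHalfPlane

namespace AdSBend

noncomputable section

open LeafSystem

/-- the real identities behind WA2; small letters: sinh of half lengths, capital letters: cosh -/
theorem WA2_real (A B C a b c Δ d1 d2 d3 a' b' c' : ℝ) (ha : 0 < a) (hb : 0 < b) (hc : 0 < c)
    (hA : A ^ 2 = a ^ 2 + 1) (hB : B ^ 2 = b ^ 2 + 1) (hC : C ^ 2 = c ^ 2 + 1) (hΔ : 0 < Δ)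
    (hΔ2 : Δ ^ 2 = 2 * A * B * C + A ^ 2 + B ^ 2 + C ^ 2 - 1)
    (e3 : Δ * d3 = c' * c - a' * (B + A * C) / a - b' * (A + B * C) / b)
    (e2 : Δ * d2 = b' * b - a' * (C + A * B) / a - c' * (A + B * C) / c)
    (e1 : Δ * d1 = a' * a - b' * (C + A * B) / b - c' * (B + A * C) / c) :
    a' - c' * ((B + A * C) / (a * c)) - d1 * c * (Δ / (a * c)) - b' * ((C + A * B) / (a * b)) = 0 ∧
    d2 - d1 * C - b' * (Δ / (a * b)) * a - d3 * A = 0 ∧
    c' * (Δ / (a * c)) + d1 * c * ((B + A * C) / (a * c)) + b' * (Δ / (a * b)) * A + d3 * a = 0 := by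
  refine ⟨?_, ?_, ?_⟩
  · have : d1 * c * (Δ / (a * c)) = (Δ * d1) / a := by field_simp
    rw [this, e1]
    field_simp
    ring
  · have key : Δ * (d2 - d1 * C - b' * (Δ / (a * b)) * a - d3 * A) = 0 := by
      have : Δ * (d2 - d1 * C - b' * (Δ / (a * b)) * a - d3 * A) =
          Δ * d2 - (Δ * d1) * C - b' * (Δ ^ 2 / b) - (Δ * d3) * A := by
        field_simp
      rw [this, e1, e2, e3, hΔ2]
      field_simp
      linear_combination (-b' * a * c) * hB + (b * c * a' * C) * hA + (a * b * c' * A) * hC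
    rcases mul_eq_zero.1 key with h | h
    · exact absurd h hΔ.ne'
    · exact h
  · have key : Δ * (c' * (Δ / (a * c)) + d1 * c * ((B + A * C) / (a * c)) + b' * (Δ / (a * b)) * A
        + d3 * a) = 0 := by
      have : Δ * (c' * (Δ / (a * c)) + d1 * c * ((B + A * C) / (a * c)) + b' * (Δ / (a * b)) * A
        + d3 * a) = c' * (Δ ^ 2 / (a * c)) + (Δ * d1) * ((B + A * C) / a) +
          b' * (Δ ^ 2 / (a * b)) * A + (Δ * d3) * a := by
        field_simp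
      rw [this, e1, e3, hΔ2]
      field_simp
      linear_combination (-b * c' * c ^ 2 + c * b' * (B * C + A)) * hA +
        (-b * c' * (A ^ 2 - 1)) * hC
    rcases mul_eq_zero.1 key with h | h
    · exact absurd h hΔ.ne'
    · exact h

/-- relation between the first vectors at the two ends of a seam -/
theorem WA2_flip (u v s : M2) (D S : ℝ) (hDS : D ^ 2 = S ^ 2 + 1) (hs : s * s = 1)
    (h : u = -(D • v) + S • (v * s)) : v = -(D • u) - S • (u * s) := by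
  have h1 : v * s * s = v := by rw [Matrix.mul_assoc, hs, Matrix.mul_one]
  rw [h]
  simp only [Matrix.add_mul, Matrix.neg_mul, Matrix.smul_mul, h1]
  have : (1 : ℝ) • v = (D ^ 2 - S ^ 2) • v := by rw [hDS]; congr 1; ring
  rw [one_smul] at this
  nth_rw 1 [this]
  module

/-- the symmetric function of the three lengths -/
theorem WA2_sq (u v w : ℝ) (hu : 0 < u) (hv : 0 < v) :
    (Real.sinh (sd u v w) * Real.sinh (u / 2) * Real.sinh (v / 2)) ^ 2 =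
      2 * Real.cosh (u / 2) * Real.cosh (v / 2) * Real.cosh (w / 2) + Real.cosh (u / 2) ^ 2 +
        Real.cosh (v / 2) ^ 2 + Real.cosh (w / 2) ^ 2 - 1 := by
  have h1 : 0 < Real.sinh (u / 2) := Real.sinh_pos_iff.2 (by linarith)
  have h2 : 0 < Real.sinh (v / 2) := Real.sinh_pos_iff.2 (by linarith)
  have h3 := WA4_cosh_sd u v w hu hv
  have h4 := Real.cosh_sq (sd u v w)
  have h5 := Real.cosh_sq (u / 2)
  have h6 := Real.cosh_sq (v / 2)
  rw [eq_div_iff (mul_pos h1 h2).ne'] at h3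
  have : (Real.sinh (sd u v w) * Real.sinh (u / 2) * Real.sinh (v / 2)) ^ 2 =
      (Real.cosh (sd u v w) * (Real.sinh (u / 2) * Real.sinh (v / 2))) ^ 2 -
        Real.sinh (u / 2) ^ 2 * Real.sinh (v / 2) ^ 2 := by
    rw [mul_pow, mul_pow, mul_pow, h4]; ring
  rw [this, h3]
  have e1 : Real.sinh (u / 2) ^ 2 = Real.cosh (u / 2) ^ 2 - 1 := by linarith
  have e2 : Real.sinh (v / 2) ^ 2 = Real.cosh (v / 2) ^ 2 - 1 := by linarith
  rw [e1, e2]
  ring

/-- WA2 -/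
theorem WA2 (hx1 : HX1_stmt) (hA : WA1_stmt) : WA2_stmt := by
  intro Γ hΓ S r hr p q x hex x'
  obtain ⟨rot, -, -, -, -, -, -⟩ := hx1 Γ hΓ S
  have hex2 : S.Hex q x p := rot _ _ _ hex
  have hex3 : S.Hex x p q := rot _ _ _ hex2
  obtain ⟨hL, hH⟩ := hA Γ hΓ S r hr
  have hp : p ∈ S.L := hex.1.1
  have hq : q ∈ S.L := hex.1.2.1
  have hx : x ∈ S.L := hex3.1.1
  obtain ⟨htp, hpp, -, hxp, -, -⟩ := hL p hp
  obtain ⟨htq, hqq, -, hxq, -, -⟩ := hL q hq
  obtain ⟨htx, hxx, -, hxx0, -, -⟩ := hL x hx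
  obtain ⟨-, hd3, hst3, hss3, hsw3, han3, -, haq, hspx, -⟩ := hH p q x hex
  obtain ⟨-, hd2, hst2, hss2, hsw2, han2, hanp, hap, hsxq, -⟩ := hH x p q hex3
  -- abbreviations
  have hsxp : sV Γ r x p = -sV Γ r p x := by rw [hsw2, neg_neg]
  have hee : sV Γ r p x * sV Γ r p x = 1 := by rw [hsw2, neg_mul_neg, hss2]
  have hax := WA2_flip (aV Γ r p) (aV Γ r x) (sV Γ r x p) _ _ (Real.cosh_sq _) hss2 hap
  rw [hsxp] at hax hsxq
  generalize he : sV Γ r p x = e at *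
  generalize hh : aV Γ r p = h at *
  have hhhe : h * (h * e) = e := by rw [← Matrix.mul_assoc, hpp, Matrix.one_mul]
  have hhee : h * e * e = h := by rw [Matrix.mul_assoc, hee, Matrix.mul_one]
  have hspq : sV Γ r p q = Real.cosh (xL Γ r p / 2) • e - Real.sinh (xL Γ r p / 2) • (h * e) := by
    rw [hspx, Matrix.mul_add, Matrix.mul_smul, Matrix.mul_smul, ← Matrix.mul_assoc h h, hpp,
      Matrix.one_mul]
    have h1 := Real.cosh_sq (xL Γ r p / 2)
    have : (1 : ℝ) • sV Γ r p q = (Real.cosh (xL Γ r p / 2) ^ 2 -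
      Real.sinh (xL Γ r p / 2) ^ 2) • sV Γ r p q := by rw [h1]; congr 1; ring
    rw [one_smul] at this
    nth_rw 1 [this]
    module
  have hax' : aV Γ r x = -(Real.cosh (sd (xL Γ r x) (xL Γ r p) (xL Γ r q)) • h) +
      Real.sinh (sd (xL Γ r x) (xL Γ r p) (xL Γ r q)) • (h * e) := by
    rw [hax, Matrix.mul_neg]; module
  have haxe : aV Γ r x * e = -(Real.cosh (sd (xL Γ r x) (xL Γ r p) (xL Γ r q)) • (h * e)) +
      Real.sinh (sd (xL Γ r x) (xL Γ r p) (xL Γ r q)) • h := by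
    rw [hax', Matrix.add_mul, Matrix.neg_mul, Matrix.smul_mul, Matrix.smul_mul, hhee]
  rw [hsw3, hsxq, Matrix.mul_neg, haxe, hax', haq, hspq, Matrix.mul_sub, Matrix.mul_smul,
    Matrix.mul_smul, hhhe]
  -- the real identities
  have pa : 0 < Real.sinh (xL Γ r p / 2) := Real.sinh_pos_iff.2 (by linarith)
  have pb : 0 < Real.sinh (xL Γ r q / 2) := Real.sinh_pos_iff.2 (by linarith)
  have pc : 0 < Real.sinh (xL Γ r x / 2) := Real.sinh_pos_iff.2 (by linarith)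
  have hsd2 : sd (xL Γ r x) (xL Γ r p) (xL Γ r q) = sd (xL Γ r p) (xL Γ r x) (xL Γ r q) :=
    WA4_sd_symm _ _ _
  rw [hsd2] at hd2
  rw [hsd2]
  have k3 := WA2_sq (xL Γ r p) (xL Γ r q) (xL Γ r x) hxp hxq
  have k2 := WA2_sq (xL Γ r p) (xL Γ r x) (xL Γ r q) hxp hxx0
  have k1 := WA2_sq (xL Γ r x) (xL Γ r q) (xL Γ r p) hxx0 hxq
  have q3 := WA4_cosh_sd (xL Γ r p) (xL Γ r q) (xL Γ r x) hxp hxq
  have q2 := WA4_cosh_sd (xL Γ r p) (xL Γ r x) (xL Γ r q) hxp hxx0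
  have q1 := WA4_cosh_sd (xL Γ r x) (xL Γ r q) (xL Γ r p) hxx0 hxq
  have s3 : 0 < Real.sinh (sd (xL Γ r p) (xL Γ r q) (xL Γ r x)) := Real.sinh_pos_iff.2 hd3
  have s2 : 0 < Real.sinh (sd (xL Γ r p) (xL Γ r x) (xL Γ r q)) := Real.sinh_pos_iff.2 hd2
  have s1 : 0 < Real.sinh (sd (xL Γ r x) (xL Γ r q) (xL Γ r p)) :=
    Real.sinh_pos_iff.2 (WA4_sd_pos _ _ _ hxx0 hxq)
  have w3 := ((WA4.2.2 (xL Γ r p) (xL Γ r q) (xL Γ r x) (x' p) (x' q) (x' x) hxp hxq hxx0)).2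
  have w2 := ((WA4.2.2 (xL Γ r p) (xL Γ r x) (xL Γ r q) (x' p) (x' x) (x' q) hxp hxx0 hxq)).2
  have w1 := ((WA4.2.2 (xL Γ r x) (xL Γ r q) (xL Γ r p) (x' x) (x' q) (x' p) hxx0 hxq hxp)).2
  have sym3 : ds Γ r x' q p x = dsd (xL Γ r p) (xL Γ r q) (xL Γ r x) (x' p) (x' q) (x' x) :=
    WA4.2.1 _ _ _ _ _ _
  have sym2 : ds Γ r x' p x q = dsd (xL Γ r p) (xL Γ r x) (xL Γ r q) (x' p) (x' x) (x' q) := rfl
  have sym1 : ds Γ r x' x q p = dsd (xL Γ r x) (xL Γ r q) (xL Γ r p) (x' x) (x' q) (x' p) := rfl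
  rw [sym1, sym2, sym3]
  generalize dsd (xL Γ r p) (xL Γ r q) (xL Γ r x) (x' p) (x' q) (x' x) = d3' at *
  generalize dsd (xL Γ r p) (xL Γ r x) (xL Γ r q) (x' p) (x' x) (x' q) = d2' at *
  generalize dsd (xL Γ r x) (xL Γ r q) (xL Γ r p) (x' x) (x' q) (x' p) = d1' at *
  have cA := Real.cosh_sq (xL Γ r p / 2)
  have cB := Real.cosh_sq (xL Γ r q / 2)
  have cC := Real.cosh_sq (xL Γ r x / 2)
  rw [q3] at w3
  rw [q2] at w2
  rw [q1] at w1
  have eqS2 : Real.sinh (sd (xL Γ r p) (xL Γ r x) (xL Γ r q)) * Real.sinh (xL Γ r p / 2) *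
      Real.sinh (xL Γ r x / 2) = Real.sinh (sd (xL Γ r p) (xL Γ r q) (xL Γ r x)) *
      Real.sinh (xL Γ r p / 2) * Real.sinh (xL Γ r q / 2) := by
    refine (pow_left_inj₀ (by positivity) (by positivity) two_ne_zero).1 ?_
    rw [k2, k3]; ring
  have eqS1 : Real.sinh (sd (xL Γ r x) (xL Γ r q) (xL Γ r p)) * Real.sinh (xL Γ r x / 2) *
      Real.sinh (xL Γ r q / 2) = Real.sinh (sd (xL Γ r p) (xL Γ r q) (xL Γ r x)) *
      Real.sinh (xL Γ r p / 2) * Real.sinh (xL Γ r q / 2) := by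
    refine (pow_left_inj₀ (by positivity) (by positivity) two_ne_zero).1 ?_
    rw [k1, k3]; ring
  rw [eqS2] at w2
  rw [eqS1] at w1
  have E3 : Real.sinh (sd (xL Γ r p) (xL Γ r q) (xL Γ r x)) * Real.sinh (xL Γ r p / 2) *
      Real.sinh (xL Γ r q / 2) * d3' = x' x / 2 * Real.sinh (xL Γ r x / 2) -
      x' p / 2 * (Real.cosh (xL Γ r q / 2) + Real.cosh (xL Γ r p / 2) *
        Real.cosh (xL Γ r x / 2)) / Real.sinh (xL Γ r p / 2) -
      x' q / 2 * (Real.cosh (xL Γ r p / 2) + Real.cosh (xL Γ r q / 2) *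
        Real.cosh (xL Γ r x / 2)) / Real.sinh (xL Γ r q / 2) := by
    rw [w3]
    field_simp
    linear_combination (-x' p * Real.cosh (xL Γ r q / 2) * Real.sinh (xL Γ r q / 2)) * cA +
      (-x' q * Real.cosh (xL Γ r p / 2) * Real.sinh (xL Γ r p / 2)) * cB
  have E2 : Real.sinh (sd (xL Γ r p) (xL Γ r q) (xL Γ r x)) * Real.sinh (xL Γ r p / 2) *
      Real.sinh (xL Γ r q / 2) * d2' = x' q / 2 * Real.sinh (xL Γ r q / 2) -
      x' p / 2 * (Real.cosh (xL Γ r x / 2) + Real.cosh (xL Γ r p / 2) *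
        Real.cosh (xL Γ r q / 2)) / Real.sinh (xL Γ r p / 2) -
      x' x / 2 * (Real.cosh (xL Γ r p / 2) + Real.cosh (xL Γ r q / 2) *
        Real.cosh (xL Γ r x / 2)) / Real.sinh (xL Γ r x / 2) := by
    rw [w2]
    field_simp
    linear_combination (-x' p * Real.cosh (xL Γ r x / 2) * Real.sinh (xL Γ r x / 2)) * cA +
      (-x' x * Real.cosh (xL Γ r p / 2) * Real.sinh (xL Γ r p / 2)) * cC
  have E1 : Real.sinh (sd (xL Γ r p) (xL Γ r q) (xL Γ r x)) * Real.sinh (xL Γ r p / 2) *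
      Real.sinh (xL Γ r q / 2) * d1' = x' p / 2 * Real.sinh (xL Γ r p / 2) -
      x' q / 2 * (Real.cosh (xL Γ r x / 2) + Real.cosh (xL Γ r p / 2) *
        Real.cosh (xL Γ r q / 2)) / Real.sinh (xL Γ r q / 2) -
      x' x / 2 * (Real.cosh (xL Γ r q / 2) + Real.cosh (xL Γ r p / 2) *
        Real.cosh (xL Γ r x / 2)) / Real.sinh (xL Γ r x / 2) := by
    rw [w1]
    field_simp
    linear_combination (-x' q * Real.cosh (xL Γ r x / 2) * Real.sinh (xL Γ r x / 2)) * cB +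
      (-x' x * Real.cosh (xL Γ r q / 2) * Real.sinh (xL Γ r q / 2)) * cC
  obtain ⟨r1, r2, r3⟩ := WA2_real (Real.cosh (xL Γ r p / 2)) (Real.cosh (xL Γ r q / 2))
    (Real.cosh (xL Γ r x / 2)) (Real.sinh (xL Γ r p / 2)) (Real.sinh (xL Γ r q / 2))
    (Real.sinh (xL Γ r x / 2)) (Real.sinh (sd (xL Γ r p) (xL Γ r q) (xL Γ r x)) *
      Real.sinh (xL Γ r p / 2) * Real.sinh (xL Γ r q / 2)) d1' d2' d3' (x' p / 2) (x' q / 2)
    (x' x / 2) pa pb pc cA cB cC (by positivity) (by rw [k3]) E3 E2 E1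
  rw [q2, q3]
  have S2 : Real.sinh (sd (xL Γ r p) (xL Γ r x) (xL Γ r q)) =
      Real.sinh (sd (xL Γ r p) (xL Γ r q) (xL Γ r x)) *
      Real.sinh (xL Γ r p / 2) * Real.sinh (xL Γ r q / 2) /
        (Real.sinh (xL Γ r p / 2) * Real.sinh (xL Γ r x / 2)) := by
    rw [← eqS2]; field_simp
  have S3 : Real.sinh (sd (xL Γ r p) (xL Γ r q) (xL Γ r x)) =
      Real.sinh (sd (xL Γ r p) (xL Γ r q) (xL Γ r x)) *
      Real.sinh (xL Γ r p / 2) * Real.sinh (xL Γ r q / 2) /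
        (Real.sinh (xL Γ r p / 2) * Real.sinh (xL Γ r q / 2)) := by
    field_simp
  rw [S2]
  rw [← S3] at r2 r3
  have fin : ∀ z1 z2 z3 : ℝ, z1 = 0 → z2 = 0 → z3 = 0 → z1 • h + z2 • e + z3 • (h * e) = 0 := by
    intro z1 z2 z3 h1 h2 h3
    rw [h1, h2, h3]; simp
  rw [← fin _ _ _ r1 r2 r3]
  module

end

end AdSBend
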