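import Pool.Agent.helper73.AD.GW1

open scoped MatrixGroups LinearAlgebra.Projectivization BigOperators
open Matrix UpperHalfPlane
open Pool.Agent.helper73.AD (PS Word Arc sg Cone)

namespace AdSBend

noncomputable section

open LeafSystem

/-- the contribution of a side of a translated triple -/
theorem WS1_side (h0 : WA0_stmt) (h1 : WA1_stmt) (h2 : WR2b_stmt) {Γ : Subgroup SL(2, ℝ)}
    {J K : Type} (c : WCtx Γ J K) (V : c.Vel) (x' : J → ℝ) (γ : SL(2, ℝ)) (hγ : γ ∈ Γ)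
    (w : M2) (hw : cj (c.ρ γ) w = -c.fx c.z₀ (γ • c.z₀)) (τ : Tri) (hτ : c.X.S.IsHex τ) :
    sideT (Γ := Γ) c.ρ V.nu (fun p => x' (c.cls p)) (gat γ τ) =
      sideT (Γ := Γ) c.ρ (fun p q => V.nu p q + w) (fun p => x' (c.cls p)) τ := by
  obtain ⟨hip, hmul, -, -, hadd, hsm, -⟩ := h0
  obtain ⟨hL, hH⟩ := h1 Γ c.hΓ c.X.S c.ρ c.adm
  obtain ⟨-, -, hmv, -, hmem, -⟩ := h2 Γ c.hΓ c.X.S c.X.pants
  obtain ⟨m1, m2, m3, -, -, -, s1, s2⟩ := hmem τ hτ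
  obtain ⟨hrot, hmir, hnxt, -⟩ := hmv τ hτ
  obtain ⟨-, -, -, -, -, -, s3, -⟩ := hmem _ hrot
  obtain ⟨p, q, x⟩ := τ
  simp only [rotT] at s3
  simp only at s1 s2 m1 m2 m3
  have a1 : aV Γ c.ρ (ga γ p) = cj (c.ρ γ) (aV Γ c.ρ p) := ((hL p m1).2.2.2.2.2 γ hγ).1
  have l1 : xL Γ c.ρ (ga γ p) = xL Γ c.ρ p := ((hL p m1).2.2.2.2.2 γ hγ).2
  have l2 : xL Γ c.ρ (ga γ q) = xL Γ c.ρ q := ((hL q m2).2.2.2.2.2 γ hγ).2
  have l3 : xL Γ c.ρ (ga γ x) = xL Γ c.ρ x := ((hL x m3).2.2.2.2.2 γ hγ).2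
  have c1 : c.cls (ga γ p) = c.cls p := c.X.D.cls_ga γ hγ p m1
  have c2 : c.cls (ga γ q) = c.cls q := c.X.D.cls_ga γ hγ q m2
  have c3 : c.cls (ga γ x) = c.cls x := c.X.D.cls_ga γ hγ x m3
  have v1 : sV Γ c.ρ (ga γ p) (ga γ x) = cj (c.ρ γ) (sV Γ c.ρ p x) :=
    (hH _ _ _ hnxt).2.2.2.2.2.2.2.2.2.2.1 γ hγ
  have n1 : V.nu (ga γ p) (ga γ q) = cj (c.ρ γ) (V.nu p q + w) := by
    rw [V.nu_ga γ hγ p q s1, (hadd _ _ _).1, hw, sub_eq_add_neg]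
  have n2 : V.nu (ga γ p) (ga γ x) = cj (c.ρ γ) (V.nu p x + w) := by
    rw [V.nu_ga γ hγ p x s2, (hadd _ _ _).1, hw, sub_eq_add_neg]
  have n3 : V.nu (ga γ x) (ga γ p) = cj (c.ρ γ) (V.nu x p + w) := by
    rw [V.nu_ga γ hγ x p s3, (hadd _ _ _).1, hw, sub_eq_add_neg]
  simp only [sideT, gat, ds, a1, l1, l2, l3, c1, c2, c3, v1, n1, n2, n3]
  rw [← (hadd _ _ _).1, ← (hadd _ _ _).1, ← hsm, ← hsm, hip, hip]

/-- WS1 -/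
theorem WS1 (h0 : WA0_stmt) (h1 : WA1_stmt) (h3 : WA3_stmt) (hr2 : WR2_stmt) (hr2b : WR2b_stmt)
    (hr3 : WR3_stmt) : WS1_stmt := by
  intro Γ J K _ _ c B V x'
  have hA3 := h3 Γ c.hΓ c.X.S c.ρ c.adm V.nu V.xd (fun p => x' (c.cls p)) V.xd_ga
    (fun γ hγ p hp => congrArg x' (c.X.D.cls_ga γ hγ p hp)) V.nu_rot V.nu_seam
  refine ⟨fun v τ hτ => (hA3 τ hτ).2.1 v, ?_⟩
  have hinv : ∀ γ ∈ Γ, ∀ τ, c.X.S.IsHex τ →
      hexT (Γ := Γ) c.ρ V.nu (fun p => x' (c.cls p)) (gat γ τ) =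
        hexT (Γ := Γ) c.ρ V.nu (fun p => x' (c.cls p)) τ := by
    intro γ hγ τ hτ
    obtain ⟨-, -, hmv, hcomm, -, -⟩ := hr2b Γ c.hΓ c.X.S c.X.pants
    have hrot : c.X.S.IsHex (rotT τ) := (hmv τ hτ).1
    have hrot2 : c.X.S.IsHex (rotT (rotT τ)) := (hmv _ hrot).1
    set w : M2 := cj (c.ρ γ)⁻¹ (-c.fx c.z₀ (γ • c.z₀)) with hwd
    have hw : cj (c.ρ γ) w = -c.fx c.z₀ (γ • c.z₀) := by
      rw [hwd, ← h0.2.1, mul_inv_cancel, h0.2.2.2.1]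
    rw [← (hA3 τ hτ).2.1 w]
    unfold hexT
    have e1 : rotT (gat γ τ) = gat γ (rotT τ) := rfl
    rw [e1]
    have e2 : rotT (gat γ (rotT τ)) = gat γ (rotT (rotT τ)) := rfl
    rw [e2, WS1_side h0 h1 hr2b c V x' γ hγ w hw τ hτ,
      WS1_side h0 h1 hr2b c V x' γ hγ w hw _ hrot, WS1_side h0 h1 hr2b c V x' γ hγ w hw _ hrot2]
  have hm := (hr3 Γ J K c B _ hinv).2
  have hs : ∑ x, hexT (Γ := Γ) c.ρ V.nu (fun p => x' (c.cls p)) (mir Γ (B.t0 x)) =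
      -∑ x, hexT (Γ := Γ) c.ρ V.nu (fun p => x' (c.cls p)) (B.t0 x) := by
    rw [← Finset.sum_neg_distrib]
    refine Finset.sum_congr rfl fun x _ => ?_
    exact (hA3 _ ((hr2 Γ J K c B).1 x)).1
  rw [hs] at hm
  linarith

end

end AdSBend
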