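import Pool.Agent.helper73.AD.GW1

open scoped MatrixGroups LinearAlgebra.Projectivization BigOperators
open Matrix UpperHalfPlane
open Pool.Agent.helper73.AD (PS Word Arc sg Cone)

namespace AdSBend

noncomputable section

open LeafSystem

theorem WS3_ip_add (X Y Z : M2) : ip (X + Y) Z = ip X Z + ip Y Z := by
  unfold ip; rw [Matrix.add_mul, Matrix.trace_add, add_div]

theorem WS3_ip_sub (X Y Z : M2) : ip (X - Y) Z = ip X Z - ip Y Z := by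
  unfold ip; rw [Matrix.sub_mul, Matrix.trace_sub, sub_div]

theorem WS3_ip_smul (t : ℝ) (X Z : M2) : ip (t • X) Z = t * ip X Z := by
  unfold ip; rw [Matrix.smul_mul, Matrix.trace_smul, smul_eq_mul, mul_div_assoc]

theorem WS3_ip_neg (X Z : M2) : ip X (-Z) = -ip X Z := by
  unfold ip; rw [Matrix.mul_neg, Matrix.trace_neg, neg_div]

theorem WS3_ip_neg' (X Z : M2) : ip (-X) Z = -ip X Z := by
  unfold ip; rw [Matrix.neg_mul, Matrix.trace_neg, neg_div]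

theorem WS3_ip_self (X : M2) (h : X * X = 1) : ip X X = 1 := by
  unfold ip; rw [h]; simp

/-- WS3 -/
theorem WS3 (h1 : WA1_stmt) (hr2b : WR2b_stmt) : WS3_stmt := by
  intro Γ J K _ _ c B V x'
  obtain ⟨hL, hH⟩ := h1 Γ c.hΓ c.X.S c.ρ c.adm
  obtain ⟨-, -, hmv, -, hmem, -⟩ := hr2b Γ c.hΓ c.X.S c.X.pants
  rw [Fintype.sum_prod_type]
  refine Finset.sum_congr rfl fun j _ => ?_
  rw [Fin.sum_univ_four]
  have hU : c.X.S.Hex (c.X.D.P j) (c.X.D.U j) (B.U' j) := B.hexU j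
  have hV : c.X.S.Hex (sw (c.X.D.P j)) (c.X.D.V j) (B.V' j) := B.hexV j
  have hU2 : c.X.S.Hex (c.X.D.P j) (B.U' j) (ga (gen Γ (c.X.D.P j)) (c.X.D.U j)) :=
    (hmv (c.X.D.P j, c.X.D.U j, B.U' j) hU).2.2.1
  have hV2 : c.X.S.Hex (sw (c.X.D.P j)) (B.V' j)
      (ga (gen Γ (sw (c.X.D.P j))) (c.X.D.V j)) :=
    (hmv (sw (c.X.D.P j), c.X.D.V j, B.V' j) hV).2.2.1
  have hP : c.X.D.P j ∈ c.X.S.L := c.X.D.memP j
  have c1 : c.cls (c.X.D.P j) = j := c.X.D.clsP j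
  have c2 : c.cls (sw (c.X.D.P j)) = j := (c.X.D.cls_sw _ hP).trans (c.X.D.clsP j)
  have hxd : V.xd (sw (c.X.D.P j)) = V.xd (c.X.D.P j) := V.xd_sw _ hP
  have hasw : c.a (sw (c.X.D.P j)) = -c.a (c.X.D.P j) := (hL _ hP).2.2.1
  have haa : ip (c.a (c.X.D.P j)) (c.a (c.X.D.P j)) = 1 := WS3_ip_self _ (hL _ hP).2.1
  have n1 := V.nu_rot _ _ _ hU
  have n2 := V.nu_rot _ _ _ hU2
  have n3 := V.nu_rot _ _ _ hV
  have n4 := V.nu_rot _ _ _ hV2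
  rw [sub_eq_iff_eq_add] at n1 n2 n3 n4
  have y1 := B.y_one j
  have y2 := B.y_two j
  have y3 := B.y_three j
  have t0 : B.t0 (j, 0) = (c.X.D.P j, c.X.D.U j, B.U' j) := rfl
  have t1 : B.t0 (j, 1) = (c.X.D.P j, B.U' j, ga (gen Γ (c.X.D.P j)) (c.X.D.U j)) := rfl
  have t2 : B.t0 (j, 2) = (sw (c.X.D.P j), c.X.D.V j, B.V' j) := rfl
  have t3 : B.t0 (j, 3) = (sw (c.X.D.P j), B.V' j,
    ga (gen Γ (sw (c.X.D.P j))) (c.X.D.V j)) := rfl
  rw [t0, t1, t2, t3]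
  unfold WCtx.Base.sideS
  simp only [y1, y2, y3, c1, c2, n2, n4, n1, n3, hxd, hasw]
  simp only [WS3_ip_neg, WS3_ip_neg', WS3_ip_add, WS3_ip_sub, WS3_ip_smul, haa]
  ring

end

end AdSBend
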