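import Pool.Agent.helper73.AD.GW1
import Pool.Agent.helper73.AD.GWL

open scoped MatrixGroups LinearAlgebra.Projectivization BigOperators
open Matrix UpperHalfPlane

namespace AdSBend

theorem WV3b_aux (G Gi A N v A' : M2) (h1 : G * Gi = 1) (h2 : Gi * G = 1)
    (hA : (1 / 2 : ℝ) • (N * A - A * N) = A') :
    (((1 / 2 : ℝ) • (v * G)) * A + G * A') * Gi +
      (G * A) * (-(Gi * ((1 / 2 : ℝ) • (v * G)) * Gi)) =
    (1 / 2 : ℝ) • ((v + G * N * Gi) * (G * A * Gi) - (G * A * Gi) * (v + G * N * Gi)) := by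
  subst hA
  have e1 : ∀ X Y : M2, X * Gi * (G * Y) = X * Y := fun X Y => by
    rw [Matrix.mul_assoc, ← Matrix.mul_assoc Gi, h2, Matrix.one_mul]
  have e2 : ∀ X : M2, X * G * Gi = X := fun X => by
    rw [Matrix.mul_assoc, h1, Matrix.mul_one]
  have e3 : ∀ X Y : M2, X * Gi * (G * Y * Gi) = X * Y * Gi := fun X Y => by
    rw [← Matrix.mul_assoc, e1]
  have f1 : (((1 / 2 : ℝ) • (v * G)) * A + G * ((1 / 2 : ℝ) • (N * A - A * N))) * Gi =
      (1 / 2 : ℝ) • (v * G * A * Gi) + (1 / 2 : ℝ) • (G * N * A * Gi - G * A * N * Gi) := by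
    simp only [Matrix.smul_mul, Matrix.mul_smul, Matrix.add_mul, Matrix.mul_sub, Matrix.sub_mul,
      Matrix.mul_assoc]
  have f2 : (G * A) * (-(Gi * ((1 / 2 : ℝ) • (v * G)) * Gi)) =
      -((1 / 2 : ℝ) • (G * A * Gi * v)) := by
    have : Gi * ((1 / 2 : ℝ) • (v * G)) * Gi = (1 / 2 : ℝ) • (Gi * v) := by
      simp only [Matrix.smul_mul, Matrix.mul_smul, ← Matrix.mul_assoc]
      rw [e2]
    rw [this]
    simp only [Matrix.mul_neg, Matrix.mul_smul, Matrix.mul_assoc]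
  have f3 : (v + G * N * Gi) * (G * A * Gi) = v * G * A * Gi + G * N * A * Gi := by
    rw [Matrix.add_mul, e3, ← Matrix.mul_assoc, ← Matrix.mul_assoc]
  have f4 : (G * A * Gi) * (v + G * N * Gi) = G * A * Gi * v + G * A * N * Gi := by
    rw [Matrix.mul_add, e3]
  rw [f1, f2, f3, f4]
  module

/-- WV3b -/
theorem WV3b : WV3b_stmt := by
  intro a s a' s' nu v g ha hs hv hvt hg
  obtain ⟨hnt, hva, hvs⟩ := hv
  have h1 : (g 0).1 * ((g 0)⁻¹).1 = 1 := by
    rw [← Matrix.SpecialLinearGroup.coe_mul, mul_inv_cancel, Matrix.SpecialLinearGroup.coe_one]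
  have h2 : ((g 0)⁻¹).1 * (g 0).1 = 1 := by
    rw [← Matrix.SpecialLinearGroup.coe_mul, inv_mul_cancel, Matrix.SpecialLinearGroup.coe_one]
  refine ⟨_, _, (hg.mul ha).mul hg.inv, (hg.mul hs).mul hg.inv, ?_, ?_, ?_⟩
  · rw [Matrix.trace_add, hvt, zero_add]
    unfold cj
    rw [Matrix.trace_mul_comm, ← Matrix.mul_assoc, h2, Matrix.one_mul]
    exact hnt
  · exact (WV3b_aux _ _ (a 0) nu v a' h1 h2 hva).symm
  · exact (WV3b_aux _ _ (s 0) nu v s' h1 h2 hvs).symm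

end AdSBend
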