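import Pool.Agent.helper73.AD.GW1
import Pool.Agent.helper73.AD.GWL

open scoped MatrixGroups LinearAlgebra.Projectivization BigOperators
open Matrix UpperHalfPlane

namespace AdSBend

theorem WV3c_cosh {x : ℝ → ℝ} {x' : ℝ} (hx : HasDerivAt x x' 0) :
    HasDerivAt (fun u => Real.cosh (x u)) (Real.sinh (x 0) * x') 0 := hx.cosh

theorem WV3c_sinh {x : ℝ → ℝ} {x' : ℝ} (hx : HasDerivAt x x' 0) :
    HasDerivAt (fun u => Real.sinh (x u)) (Real.cosh (x 0) * x') 0 := hx.sinh

/-- WV3c -/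
theorem WV3c : WV3c_stmt := by
  intro a s a' s' nu x x' h ha hs hx hv
  obtain ⟨hta, hts, haa, hss, has⟩ := h 0
  obtain ⟨hnt, hva, hvs⟩ := hv
  have hx2 : HasDerivAt (fun u => x u / 2) (x' / 2) 0 := hx.div_const 2
  have d1 := (HasD.smul (WV3c_cosh hx2) hs).add (HasD.smul (WV3c_sinh hx2) (ha.mul hs))
  have d2 := (HasD.smul (WV3c_cosh hx) ha).neg.add (HasD.smul (WV3c_sinh hx) (ha.mul hs))
  have d3 := (HasD.smul (WV3c_cosh hx) hs).neg.add (HasD.smul (WV3c_sinh hx) (ha.mul hs))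
  generalize hA : a 0 = A at *
  generalize hS : s 0 = S at *
  have hsa : S * A = -(A * S) := by rw [has, neg_neg]
  -- products
  have p1 : A * (A * S) = S := by rw [← Matrix.mul_assoc, haa, Matrix.one_mul]
  have p2 : A * S * A = -S := by
    rw [Matrix.mul_assoc, hsa, Matrix.mul_neg, p1]
  have p3 : A * S * S = A := by rw [Matrix.mul_assoc, hss, Matrix.mul_one]
  have p4 : S * (A * S) = -A := by
    rw [← Matrix.mul_assoc, hsa, Matrix.neg_mul, p3]
  have q1 : a' * S + A * s' = (1 / 2 : ℝ) • (nu * (A * S) - (A * S) * nu) := by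
    rw [← hva, ← hvs]
    simp only [Matrix.smul_mul, Matrix.mul_smul, Matrix.sub_mul, Matrix.mul_sub, Matrix.mul_assoc]
    module
  rw [q1] at d1 d2 d3
  refine ⟨⟨_, d1, ?_, ?_, ?_⟩, ⟨_, d2, ?_, ?_, ?_⟩, ⟨_, d3, ?_, ?_, ?_⟩⟩
  · rw [Matrix.trace_add, Matrix.trace_smul, hnt, hta, smul_zero, add_zero]
  · rw [← hva]
    simp only [Matrix.add_mul, Matrix.mul_add, Matrix.smul_mul, Matrix.mul_smul]
    module
  · rw [← hvs]
    simp only [Matrix.add_mul, Matrix.mul_add, Matrix.smul_mul, Matrix.mul_smul, p1, p2, hsa]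
    module
  · rw [Matrix.trace_add, Matrix.trace_smul, hnt, hts, smul_zero, add_zero]
  · rw [← hva]
    simp only [Matrix.add_mul, Matrix.mul_add, Matrix.smul_mul, Matrix.mul_smul, Matrix.neg_mul,
      Matrix.mul_neg, p3, p4, hsa]
    module
  · rw [← hvs]
    simp only [Matrix.add_mul, Matrix.mul_add, Matrix.smul_mul, Matrix.mul_smul, Matrix.neg_mul,
      Matrix.mul_neg]
    module
  · rw [Matrix.trace_sub, Matrix.trace_smul, hnt, hta, smul_zero, sub_zero]
  · rw [← hva]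
    simp only [Matrix.sub_mul, Matrix.mul_sub, Matrix.smul_mul, Matrix.mul_smul, Matrix.neg_mul,
      Matrix.mul_neg]
    module
  · rw [← hvs]
    simp only [Matrix.add_mul, Matrix.mul_add, Matrix.sub_mul, Matrix.mul_sub, Matrix.smul_mul,
      Matrix.mul_smul, Matrix.neg_mul, Matrix.mul_neg, p1, p2, hsa]
    module

end AdSBend
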